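import Pool.Agent.H937.QS.Stm2

/-!
Project QS (helper937), task FAM (helper21): the family for four points.
-/

set_option autoImplicit false

open scoped Matrix TensorProduct
open Pool.Agent.H937.QS
universe u
namespace Pool.Agent.H21.QS.FAM

section prelim

variable {M : Type u} [Field M]

lemma cramer' (N : Matrix (Fin 4) (Fin 4) M) (hN : N.det ≠ 0) (f : Fin 4 → M) (m : Fin 4) :
    (N.updateCol m f).det = N.det * co N f m := by
  rw [← Matrix.cramer_apply, Matrix.cramer_eq_adjugate_mulVec, co, Matrix.inv_def,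
    Matrix.smul_mulVec, Pi.smul_apply, smul_eq_mul, Ring.inverse_eq_inv', ← mul_assoc,
    mul_inv_cancel₀ hN, one_mul]

lemma dsc_eq (N : Matrix (Fin 4) (Fin 4) M) (hN : N.det ≠ 0) (i j : Fin 3) (m : Fin 4) :
    dsc N i j m = N.det * sc N i j m := by
  rw [dsc, cramer' N hN, sc]

lemma Lam_eq (N : Matrix (Fin 4) (Fin 4) M) (hN : N.det ≠ 0) (X : Fin 15) :
    Lam N X = N.det * pL (sc N) X := by
  rw [Lam]
  have h : dsc N = fun i j m => N.det * sc N i j m := by
    funext i j m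
    exact dsc_eq N hN i j m
  rw [h]
  fin_cases X <;> simp only [pL] <;> simp <;> ring

lemma co_add (N : Matrix (Fin 4) (Fin 4) M) {ι : Type} (s : Finset ι) (c : ι → M)
    (f : ι → Fin 4 → M) (m : Fin 4) :
    co N (∑ l ∈ s, c l • f l) m = ∑ l ∈ s, c l * co N (f l) m := by
  rw [co, Matrix.mulVec_sum, Finset.sum_apply]
  refine Finset.sum_congr rfl fun l _ => ?_
  rw [Matrix.mulVec_smul, Pi.smul_apply, smul_eq_mul, co]

end prelim

section alg

variable {k B M : Type u} [Field k] [CommRing B] [Algebra k B] [Field M] [Algebra k M]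

/-- the product of the values is symmetric -/
lemma nu_mem (ev : B →ₐ[k] (Fin 4 → M)) (u : B) : ∏ q, ev u q ∈ Esym k ev := by
  apply Algebra.subset_adjoin
  refine ⟨u, 0, ?_⟩
  rw [Polynomial.coeff_zero_eq_eval_zero, Polynomial.eval_prod]
  simp only [Polynomial.eval_sub, Polynomial.eval_X, Polynomial.eval_C, zero_sub]
  rw [Finset.prod_neg, Finset.card_univ, Fintype.card_fin]
  norm_num

/-- the localization -/
def Cloc (C : Subalgebra k M) (ν : M) (hν : ν ∈ C) : Subring M where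
  carrier := {x | ∃ e : ℕ, ν ^ e * x ∈ C}
  mul_mem' := by
    rintro x y ⟨e, he⟩ ⟨f, hf⟩
    refine ⟨e + f, ?_⟩
    have h : ν ^ (e + f) * (x * y) = (ν ^ e * x) * (ν ^ f * y) := by ring
    rw [h]
    exact C.mul_mem he hf
  one_mem' := ⟨0, by rw [pow_zero, one_mul]; exact C.one_mem⟩
  add_mem' := by
    rintro x y ⟨e, he⟩ ⟨f, hf⟩
    refine ⟨e + f, ?_⟩
    have h : ν ^ (e + f) * (x + y) = ν ^ f * (ν ^ e * x) + ν ^ e * (ν ^ f * y) := by ring
    rw [h]
    exact C.add_mem (C.mul_mem (C.pow_mem hν _) he) (C.mul_mem (C.pow_mem hν _) hf)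
  zero_mem' := ⟨0, by rw [mul_zero]; exact C.zero_mem⟩
  neg_mem' := by
    rintro x ⟨e, he⟩
    refine ⟨e, ?_⟩
    rw [mul_neg]
    exact C.neg_mem he

lemma le_Cloc (C : Subalgebra k M) (ν : M) (hν : ν ∈ C) {x : M} (hx : x ∈ C) :
    x ∈ Cloc C ν hν := ⟨0, by rw [pow_zero, one_mul]; exact hx⟩

/-- the three coefficients -/
def cc (a : k) : Fin 3 → k := ![0, 1, a]

lemma cc_mem (a : k) {c : k} (h : c = 0 ∨ c = 1 ∨ c = a) : ∃ i, cc a i = c := by
  rcases h with h | h | h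
  · exact ⟨0, h.symm⟩
  · exact ⟨1, h.symm⟩
  · exact ⟨2, h.symm⟩

/-- codes of elements -/
abbrev I0 (n : ℕ) : Type := (Fin 3 → Fin 3) × (Fin 3 → Fin (n + 1))

/-- the element with a given code -/
def bb (a : k) {n : ℕ} (w : Fin (n + 1) → B) (p : I0 n) : B :=
  cc a (p.1 0) • w (p.2 0) + cc a (p.1 1) • w (p.2 1) + cc a (p.1 2) • w (p.2 2)

lemma bb_w (a : k) {n : ℕ} (w : Fin (n + 1) → B) (l : Fin (n + 1)) :
    bb a w (![1, 0, 0], fun _ => l) = w l := by
  simp [bb, cc]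

/-- the index set -/
abbrev II (n : ℕ) : Type := (Fin 4 → I0 n) × (Fin 3 → I0 n) × Fin 15

/-- the family -/
noncomputable def zz (ev : B →ₐ[k] (Fin 4 → M)) (a : k) {n : ℕ} (w : Fin (n + 1) → B)
    (i : II n) : M :=
  (Matrix.of fun q r => ev (bb a w (i.1 r)) q).det *
    Lam (cols (ev (bb a w (i.2.1 0))) (ev (bb a w (i.2.1 1))) (ev (bb a w (i.2.1 2)))) i.2.2

/-- the good indices -/
def SS (a : k) {n : ℕ} (w : Fin (n + 1) → B) : Set (II n) :=
  {i | i.2.2 = 2 ∧ bb a w (i.1 0) = 1 ∧ ∀ r : Fin 3, bb a w (i.1 r.succ) = bb a w (i.2.1 r)}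

/-- the matrix of a good index -/
lemma mat_eq (ev : B →ₐ[k] (Fin 4 → M)) (m : Fin 4 → B) (hm : m 0 = 1) :
    (Matrix.of fun q r => ev (m r) q) = cols (ev (m 1)) (ev (m 2)) (ev (m 3)) := by
  ext q r
  rw [Matrix.of_apply, cols, Matrix.of_apply]
  fin_cases r
  · simp [hm]
  · rfl
  · rfl
  · rfl

end alg

section main

variable {k B M : Type u} [Field k] [CommRing B] [Algebra k B] [Field M] [Algebra k M]

/-- the equality of the two descriptions of the chart algebra -/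
lemma chart_eq (hZIN : S_ZIN.{u}) (hNORM : S_NORM.{u}) (ev : B →ₐ[k] (Fin 4 → M)) (a : k)
    {n : ℕ} (w : Fin (n + 1) → B)
    (hspan : ∀ b : B, ∃ c : Fin (n + 1) → M,
      (∀ l, c l ∈ Esym k ev) ∧ ∀ q, ev b q = ∑ l, c l * ev (w l) q)
    (s : II n) (hs : s ∈ SS a w) (hz : zz ev a w s ≠ 0) (N : Matrix (Fin 4) (Fin 4) M)
    (hN : N = Matrix.of fun q r => ev (bb a w (s.1 r)) q) :
    (∀ q, N q 0 = 1) ∧ N.det ≠ 0 ∧ pL (sc N) 2 ≠ 0 ∧ zz ev a w s = N.det * Lam N 2 ∧
    (Esym k ev ⊔ Algebra.adjoin k (Set.range fun i => zz ev a w i / zz ev a w s) :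
      Subalgebra k M) = CC k ev N := by
  obtain ⟨hs1, hs2, hs3⟩ := hs
  have hcols : N = cols (ev (bb a w (s.2.1 0))) (ev (bb a w (s.2.1 1))) (ev (bb a w (s.2.1 2))) := by
    rw [hN, mat_eq ev (fun r => bb a w (s.1 r)) hs2]
    have h0 := hs3 0
    have h1 := hs3 1
    have h2 := hs3 2
    rw [← h0, ← h1, ← h2]
    rfl
  have hzs : zz ev a w s = N.det * Lam N 2 := by
    rw [zz, ← hN, ← hcols, hs1]
  have hdet : N.det ≠ 0 := by
    intro h
    rw [hzs, h, zero_mul] at hz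
    exact hz rfl
  have hLam : Lam N 2 ≠ 0 := by
    intro h
    rw [hzs, h, mul_zero] at hz
    exact hz rfl
  have hp2 : pL (sc N) 2 ≠ 0 := by
    intro h
    rw [Lam_eq N hdet, h, mul_zero] at hLam
    exact hLam rfl
  have hN0 : ∀ q, N q 0 = 1 := by
    intro q
    rw [hcols]
    rfl
  refine ⟨hN0, hdet, hp2, hzs, ?_⟩
  apply le_antisymm
  · apply sup_le
    · have h1 := hNORM k B M 4 ev (fun r => bb a w (s.1 r)) (by rw [← hN]; exact hdet)
      refine h1.trans (Algebra.adjoin_mono ?_)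
      rintro z ⟨b, i, rfl⟩
      left
      refine ⟨b, i, ?_⟩
      rw [← hN, co]
    · rw [Algebra.adjoin_le_iff]
      rintro _ ⟨i, rfl⟩
      have hco : ∀ b i, co N (ev b) i ∈ CC k ev N := fun b i =>
        Algebra.subset_adjoin (Or.inl ⟨b, i, rfl⟩)
      have hpl : ∀ X, pL (sc N) X / pL (sc N) 2 ∈ CC k ev N := fun X =>
        Algebra.subset_adjoin (Or.inr ⟨X, rfl⟩)
      have h2 := (hZIN M (CC k ev N).toSubring N hN0 hdet hp2 hpl
        (fun r => ev (bb a w (i.1 r))) (ev (bb a w (i.2.1 0))) (ev (bb a w (i.2.1 1)))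
        (ev (bb a w (i.2.1 2))) (fun r l => hco _ _) (fun l => hco _ _) (fun l => hco _ _)
        (fun l => hco _ _) i.2.2).2
      rw [← hzs] at h2
      exact h2
  · have hE : Esym k ev ≤ (Esym k ev ⊔ Algebra.adjoin k
        (Set.range fun i => zz ev a w i / zz ev a w s) : Subalgebra k M) := le_sup_left
    have hA : ∀ i, zz ev a w i / zz ev a w s ∈ (Esym k ev ⊔ Algebra.adjoin k
        (Set.range fun i => zz ev a w i / zz ev a w s) : Subalgebra k M) := fun i =>
      (le_sup_right : Algebra.adjoin k (Set.range fun i => zz ev a w i / zz ev a w s) ≤ _)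
        (Algebra.subset_adjoin ⟨i, rfl⟩)
    rw [CC, Algebra.adjoin_le_iff]
    rintro z (⟨b, r, rfl⟩ | ⟨X, rfl⟩)
    · obtain ⟨c, hc, hb⟩ := hspan b
      have hevb : ev b = ∑ l, c l • ev (w l) := by
        funext q
        rw [hb q, Finset.sum_apply]
        rfl
      rw [hevb, co_add]
      refine Subalgebra.sum_mem _ fun l _ => Subalgebra.mul_mem _ (hE (hc l)) ?_
      have h3 := hA (Function.update s.1 r (![1, 0, 0], fun _ => l), s.2.1, 2)
      have h4 : zz ev a w (Function.update s.1 r (![1, 0, 0], fun _ => l), s.2.1, 2) =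
          N.det * co N (ev (w l)) r * Lam N 2 := by
        rw [zz, ← cramer' N hdet, ← hcols]
        congr 2
        ext q t
        rw [Matrix.of_apply, Matrix.updateCol_apply]
        change ev (bb a w (Function.update s.1 r (![1, 0, 0], fun _ => l) t)) q = _
        by_cases htr : t = r
        · subst htr
          rw [if_pos rfl, Function.update_self, bb_w]
        · rw [if_neg htr, Function.update_of_ne htr, hN, Matrix.of_apply]
      have h5 : zz ev a w (Function.update s.1 r (![1, 0, 0], fun _ => l), s.2.1, 2) /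
          zz ev a w s = co N (ev (w l)) r := by
        rw [h4, hzs]
        field_simp
      rw [h5] at h3
      exact h3
    · have h3 := hA (s.1, s.2.1, X)
      have h4 : zz ev a w (s.1, s.2.1, X) = N.det * Lam N X := by
        rw [zz, ← hN, ← hcols]
      have h5 : zz ev a w (s.1, s.2.1, X) / zz ev a w s = pL (sc N) X / pL (sc N) 2 := by
        rw [h4, hzs, Lam_eq N hdet, Lam_eq N hdet]
        field_simp
      rw [h5] at h3
      exact h3

theorem t_FAM (hCH : S_CH.{u}) (hTRC : S_TRC.{u}) (hZIN : S_ZIN.{u}) (hLOCC : S_LOCC.{u})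
    (hCOV : S_COV.{u}) (hSPAN : S_SPAN.{u}) (hNORM : S_NORM.{u}) : S_FAM.{u} := by
  intro k B R M _ a ha _ _ _ _ _ j hj _ _ γ hγ ev hev b0 hb0
  have hft : Algebra.FiniteType k B := inferInstance
  obtain ⟨n, w, hw0, hspan⟩ := hSPAN k B M 4 ev
  refine ⟨II n, inferInstance, zz ev a w, SS a w, ?_, ?_, ?_, ?_, ?_⟩
  · intro i
    exact (hTRC k B M).2 ev (fun r => bb a w (i.1 r)) _ _ _ i.2.2
  · intro i
    exact ⟨fun r => ev (bb a w (i.1 r)), _, _, _, i.2.2, fun r => ⟨_, rfl⟩, ⟨_, rfl⟩, ⟨_, rfl⟩,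
      ⟨_, rfl⟩, rfl⟩
  · intro V hV
    obtain ⟨c, c', i, hc, hc', key⟩ := hCOV k B M a ha ev b0 hb0 n w hw0 hspan V hV
    choose d hd using fun l => cc_mem a (hc l)
    choose d' hd' using fun l => cc_mem a (hc' l)
    obtain ⟨k1, k2, k3, k4⟩ := key _ _ rfl rfl _ rfl
    set px : I0 n := (d, fun r => i r.castSucc) with hpx
    set py : I0 n := (d', fun r => i r.castSucc) with hpy
    set pt : I0 n := (![1, 0, 0], fun _ => i 3) with hpt
    set p1 : I0 n := (![1, 0, 0], fun _ => 0) with hp1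
    have ex : bb a w px = c 0 • w (i 0) + c 1 • w (i 1) + c 2 • w (i 2) := by
      rw [bb, hd, hd, hd]
      rfl
    have ey : bb a w py = c' 0 • w (i 0) + c' 1 • w (i 1) + c' 2 • w (i 2) := by
      rw [bb, hd', hd', hd']
      rfl
    have et : bb a w pt = w (i 3) := bb_w a w (i 3)
    have e1 : bb a w p1 = 1 := (bb_w a w 0).trans hw0
    rw [← ex, ← ey, ← et] at k1 k2 k3 k4
    set s : II n := (![p1, px, py, pt], ![px, py, pt], 2) with hs
    have hsS : s ∈ SS a w := by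
      refine ⟨rfl, e1, ?_⟩
      intro r
      fin_cases r <;> rfl
    have hmat : (Matrix.of fun q r => ev (bb a w (s.1 r)) q) =
        cols (ev (bb a w px)) (ev (bb a w py)) (ev (bb a w pt)) :=
      mat_eq ev (fun r => bb a w (s.1 r)) e1
    have hzs : zz ev a w s = (cols (ev (bb a w px)) (ev (bb a w py)) (ev (bb a w pt))).det *
        Lam (cols (ev (bb a w px)) (ev (bb a w py)) (ev (bb a w pt))) 2 := by
      rw [zz, hmat]
      rfl
    refine ⟨s, hsS, ?_, ?_⟩
    · rw [hzs]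
      exact mul_ne_zero k1 k2
    · intro i'
      rw [hzs, zz, mul_div_mul_comm]
      exact V.mul_mem _ _ (k3 fun r => bb a w (i'.1 r)) (k4 _ _ _ _)
  · intro s hs hz
    obtain ⟨h1, h2, h3, h4, h5⟩ := chart_eq hZIN hNORM ev a w hspan s hs hz _ rfl
    rw [h5]
    exact hCH k B R M j hj γ hγ ev hev (fun r => bb a w (s.1 r)) hs.2.1 _ (fun q i => rfl) h2 h3
  · intro s hs hz u hu ζ hζ
    obtain ⟨h1, h2, h3, h4, h5⟩ := chart_eq hZIN hNORM ev a w hspan s hs hz _ rfl
    rw [h5]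
    set N := (Matrix.of fun q r => ev (bb a w (s.1 r)) q) with hN
    obtain ⟨h, x, y, t, X, hh, hx, hy, ht, rfl⟩ := hζ
    have hν : ∏ q, ev u q ∈ CC k ev N := by
      rw [← h5]
      exact (le_sup_left : Esym k ev ≤ _) (nu_mem ev u)
    have hco : ∀ b i, (N⁻¹ *ᵥ ev b) i ∈ CC k ev N := fun b i =>
      Algebra.subset_adjoin (Or.inl ⟨b, i, rfl⟩)
    have hloc : ∀ f ∈ LocF ev u, ∀ i, co N f i ∈ Cloc (CC k ev N) (∏ q, ev u q) hν := by
      intro f hf i
      obtain ⟨e, he⟩ := hLOCC k B M 4 ev (fun r => bb a w (s.1 r)) N (fun q i => rfl) h2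
        (CC k ev N) hco u hu f hf
      exact ⟨e, he i⟩
    have h6 := (hZIN M (Cloc (CC k ev N) (∏ q, ev u q) hν) N h1 h2 h3
      (fun X => le_Cloc _ _ _ (Algebra.subset_adjoin (Or.inr ⟨X, rfl⟩))) h x y t
      (fun r l => hloc _ (hh r) l) (hloc _ hx) (hloc _ hy) (hloc _ ht) X).2
    rw [← h4] at h6
    exact h6

end main

end Pool.Agent.H21.QS.FAM
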